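import Pool.Agent.T9h64.CS.Main

/-!
# A contractible surface in `ℂ³` with exactly one singular point, an ordinary double point, that is
# not quasihomogeneous in any polynomial coordinates

The surface is `X = {3 Y ^ 2 = z W}` with coordinates `(z, Y, m)` and
`W = 4 m + 2 (4 + 3 Y) (z m - 1) + z (z m - 1) ^ 2 - 4 (1 + Y) ^ 3`.
With `u = 1 + z (4 + 3 Y + z (z m - 1)) / 2` and `v = 1 + z (1 + Y)` one has `u ^ 2 - v ^ 3 = z` on
`X`: the part `z ≠ 0` of `X` is the plane minus the cuspidal cubic `u ^ 2 = v ^ 3`, and the part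
`z = 0` is a line which lies over the point `(1, 1)` of the cubic.

* Contractibility: an explicit deformation along the orbits of `(l ^ 3 u, l ^ 2 v)` shows that the
  identity of `X` is homotopic to a map which factors through the plane minus half of the real part
  of the cubic, and that set is homeomorphic to a star-shaped one.
* If `p ∘ α` were quasihomogeneous, the singular point would correspond to the origin, and every
  point of `X` would lie on a polynomial curve through the singular point which meets it only once.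
  By the Mason-Stothers theorem, applied to `u ^ 2 - v ^ 3 = z`, all such curves lie in `z = 0`.
-/

open MvPolynomial

namespace Pool.Agent.Results.MP_c4712b_ag.ContractibleOneNode

/-- The zero set in `ℂ³` of a polynomial. -/
def zeroSet (p : MvPolynomial (Fin 3) ℂ) : Set (Fin 3 → ℂ) := {x | eval x p = 0}

/-- `x` is a singular point of the hypersurface `zeroSet p` with its reduced structure: all
polynomials that vanish on `zeroSet p` have zero gradient at `x` (Jacobian criterion). -/
def IsSingularPoint (p : MvPolynomial (Fin 3) ℂ) (x : Fin 3 → ℂ) : Prop :=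
  x ∈ zeroSet p ∧ ∀ f : MvPolynomial (Fin 3) ℂ, (∀ y ∈ zeroSet p, eval y f = 0) →
    ∀ i, eval x (pderiv i f) = 0

/-- Quasihomogeneous polynomials, with positive weights. -/
def IsQuasihomogeneous (q : MvPolynomial (Fin 3) ℂ) : Prop :=
  ∃ (w : Fin 3 → ℕ) (d : ℤ), (∀ i, 0 < w i) ∧
    ∀ t : ℂ, t ≠ 0 → ∀ x : Fin 3 → ℂ, eval (fun i => t ^ w i * x i) q = t ^ d * eval x q

/-- The polynomial map `x ↦ (a 0 (x), a 1 (x), a 2 (x))` is a polynomial automorphism of `ℂ³`: it
has a polynomial inverse `b`. -/
def IsPolynomialAutomorphism (a : Fin 3 → MvPolynomial (Fin 3) ℂ) : Prop :=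
  ∃ b : Fin 3 → MvPolynomial (Fin 3) ℂ,
    (∀ i, bind₁ a (b i) = X i) ∧ ∀ i, bind₁ b (a i) = X i

/-- The polynomial of the example; `X 0 = z`, `X 1 = Y`, `X 2 = m`. -/
noncomputable def poly : MvPolynomial (Fin 3) ℂ :=
  3 * X 1 ^ 2 - X 0 * (4 * X 2 + 2 * (4 + 3 * X 1) * (X 0 * X 2 - 1) +
    X 0 * (X 0 * X 2 - 1) ^ 2 - 4 * (1 + X 1) ^ 3)

/-- The surface `poly = 0` in `ℂ³` is contractible; it has exactly one singular point, and this
point is an ordinary double point (the Hessian matrix of `poly` there is invertible); and there is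
no polynomial automorphism `a` of `ℂ³` such that `poly ∘ a` is quasihomogeneous. -/
theorem result :
    ContractibleSpace (zeroSet poly) ∧
      (∃ x : Fin 3 → ℂ, IsSingularPoint poly x ∧ (∀ y, IsSingularPoint poly y → y = x) ∧
        (Matrix.of fun i j => eval x (pderiv i (pderiv j poly))).det ≠ 0) ∧
      ∀ a : Fin 3 → MvPolynomial (Fin 3) ℂ, IsPolynomialAutomorphism a →
        ¬ IsQuasihomogeneous (bind₁ a poly) := by
  refine ⟨Pool.Agent.T9h64.CS.P_contractible, ⟨Pool.Agent.T9h64.CS.O,
    Pool.Agent.T9h64.CS.sing_O, fun y hy => Pool.Agent.T9h64.CS.sing_unique hy,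
    Pool.Agent.T9h64.CS.hess⟩, ?_⟩
  rintro a ⟨b, h1, h2⟩
  have hab : ∀ f : MvPolynomial (Fin 3) ℂ, aeval a (aeval b f) = f := by
    intro f
    have : (bind₁ a).comp (bind₁ b) = AlgHom.id ℂ (MvPolynomial (Fin 3) ℂ) := by
      apply MvPolynomial.algHom_ext
      intro i
      rw [AlgHom.comp_apply, bind₁_X_right, h1]; rfl
    exact DFunLike.congr_fun this f
  have hba : ∀ f : MvPolynomial (Fin 3) ℂ, aeval b (aeval a f) = f := by
    intro f
    have : (bind₁ b).comp (bind₁ a) = AlgHom.id ℂ (MvPolynomial (Fin 3) ℂ) := by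
      apply MvPolynomial.algHom_ext
      intro i
      rw [AlgHom.comp_apply, bind₁_X_right, h2]; rfl
    exact DFunLike.congr_fun this f
  exact Pool.Agent.T9h64.CS.not_QH hba hab

end Pool.Agent.Results.MP_c4712b_ag.ContractibleOneNode
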